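import Pool.Agent.TH996.Rec.All

/-!
In the parking process on a transitive, unimodular, infinitely accessible triple the expected
number of visits to a vertex is finite at every density below one half.
-/

namespace Pool.Agent.Results.MP_971c94_pr.FiniteMean

open Pool.Agent.TH996.Parking Pool.Agent.TH996

/-- **Theorem (full positive answer to Q1).** For every transitive, unimodular, infinitely
accessible triple `(G, K, Γ)` and every `p < 1 / 2` the expected number of visits to a vertex in the
parking process at density `p` is finite. -/
theorem result {V : Type*} [MeasurableSpace V] [DiscreteMeasurableSpace V]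
    (G : SimpleGraph V) [G.LocallyFinite] (hG : G.Connected) (K : V → V → ℝ)
    (Γ : Subgroup (Equiv.Perm V)) (hK : IsKernel G K) (hA : IsAut G K Γ)
    (hT : IsTransitive Γ) (hU : IsUnimodular Γ) (hI : IsInfinitelyAccessible G K Γ)
    (p : ℝ) (hp0 : 0 ≤ p) (hp1 : p < 1 / 2) (x : V) :
    expectedVisits G K p x < ⊤ :=
  Park.visits_finite G hG K Γ hK hA hT hU hI p hp0 hp1 x

end Pool.Agent.Results.MP_971c94_pr.FiniteMean
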