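import Pool.Agent.TH996.LL.Main2
import Pool.Agent.TH996.LL.Lamp
import Pool.Agent.TH996.LL.Conn
import Pool.Agent.TH996.LL.LampBin
import Pool.Agent.TH996.LL.Sharp
import Pool.Agent.TH996.LL.Lim

/-!
In the parking process on the lamplighter graph with its directed kernel the expected number of
visits to a vertex at density `p` is asymptotic to `log (1 / (1 / 2 - p))` as `p ↗ 1 / 2`.
-/

open Filter Topology

namespace Pool.Agent.Results.MP_971c94_pr.LogAsymptotics

open Pool.Agent.TH996.Parking Pool.Agent.TH996 Pool.Agent.TH996.LL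

/-- **Theorem.** The lamplighter graph `LG` with the kernel `LK` and the group `LΓ` is a transitive,
unimodular, infinitely accessible triple. There the expected number `v` of visits at density
`0 ≤ p < 1 / 2` differs from `log ((1 - p) / (1 - 2 p))` by at most `4 log (v + 2) + 8`, and
`v / log (1 / (1 / 2 - p))` tends to `1` as `p ↗ 1 / 2`. So there are no `γ > 0` and `C > 0` for
which `v (1 / 2 - p) ^ γ` tends to `C`. -/
theorem result :
    LG.Connected ∧ IsKernel LG LK ∧ IsAut LG LK LΓ ∧ IsTransitive LΓ ∧ IsUnimodular LΓ ∧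
    IsInfinitelyAccessible LG LK LΓ ∧
    (∀ x : LV, ∀ p : ℝ, 0 ≤ p → p < 1 / 2 → expectedVisits LG LK p x ≠ ⊤ ∧
      |(expectedVisits LG LK p x).toReal - Real.log ((1 - p) / (1 - 2 * p))| ≤
        4 * Real.log ((expectedVisits LG LK p x).toReal + 2) + 8) ∧
    (∀ x : LV, Tendsto (fun p : ℝ => (expectedVisits LG LK p x).toReal /
      Real.log (1 / (1 / 2 - p))) (𝓝[<] (1 / 2)) (𝓝 1)) ∧
    ∀ x : LV, ¬ ∃ γ C : ℝ, 0 < γ ∧ 0 < C ∧
      Tendsto (fun p : ℝ => (expectedVisits LG LK p x).toReal * (1 / 2 - p) ^ γ)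
        (𝓝[<] (1 / 2)) (𝓝 C) := by
  have : Countable LV := Park.countable_of_connected LG lg_connected
  set S := Park.mkTri LG LK LΓ lk_kernel l_aut l_trans l_unimod with hS
  have B : Bin S := lbin S rfl fun _ => rfl
  have hv : ∀ p : ℝ, 0 ≤ p → p < 1 / 2 → ∀ x : LV,
      expectedVisits LG LK p x = ENNReal.ofReal (∑' t : ℕ, Park.aT S p 0 x t) := by
    intro p hp0 hp1 x
    rw [Park.expectedVisits_eq LG LK LΓ lk_kernel l_aut l_trans l_unimod ⟨hp0, by linarith⟩ x,
      ENNReal.ofReal_tsum_of_nonneg (fun t => Park.aT_nonneg _ _ _) (summable_aT B hp0 hp1 x)]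
  have hv' : ∀ p : ℝ, 0 ≤ p → p < 1 / 2 → ∀ x : LV,
      (expectedVisits LG LK p x).toReal = ∑' t : ℕ, Park.aT S p 0 x t := by
    intro p hp0 hp1 x
    rw [hv p hp0 hp1 x, ENNReal.toReal_ofReal (tsum_nonneg fun t => Park.aT_nonneg _ _ _)]
  have key := fun x : LV => sharp_limits (fun p => (expectedVisits LG LK p x).toReal)
    (fun p => ENNReal.toReal_nonneg)
    (fun p hp0 hp1 k => by
      show (expectedVisits LG LK p x).toReal ≤ _
      rw [hv' p hp0 hp1 x]
      exact (sharp_bin B hp0 hp1 x).1 k)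
    (fun p hp0 hp1 k => by
      show (expectedVisits LG LK p x).toReal ≤ _ → _
      rw [hv' p hp0 hp1 x]
      exact (sharp_bin B hp0 hp1 x).2 k)
  have hlim := fun x : LV => limits (fun p => (expectedVisits LG LK p x).toReal) 100
    (fun p => ENNReal.toReal_nonneg)
    fun p hp0 hp1 => by
      show (expectedVisits LG LK p x).toReal ≤ _
      rw [hv' p hp0 hp1 x]
      exact (summable_aT B hp0 hp1 x).tsum_le_of_sum_range_le fun T => cars_le B hp0 hp1 x T
  exact ⟨lg_connected, lk_kernel, l_aut, l_trans, l_unimod, l_inf,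
    fun x p hp0 hp1 => ⟨by rw [hv p hp0 hp1 x]; exact ENNReal.ofReal_ne_top,
      (key x).1 p hp0 hp1⟩, fun x => (key x).2, fun x => (hlim x).2⟩

end Pool.Agent.Results.MP_971c94_pr.LogAsymptotics
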